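import Pool.Agent.J6H60.FV.Stm
import Pool.Agent.W366.FV.KN

/-!
# A numerical inequality for the law of `κ` (module FV2-KN2)
-/

set_option autoImplicit false

open MeasureTheory Filter Topology

namespace Pool.Agent.J6H84.FVN

open Pool.Agent.W716.FV Pool.Agent.J6H60.FV Pool.Agent.W366.FVKN

/-- integrability of functions of growth at most `1 + x ^ 4` -/
theorem int_of (hKM : KappaMoments) {g : ℝ → ℝ} (hg : Measurable g) {C : ℝ}
    (h : ∀ x, |g x| ≤ C * (1 + x ^ 2)) : Integrable g nu := by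
  obtain ⟨hp, h4, -⟩ := hKM
  have hC : 0 ≤ C := by
    have := (abs_nonneg _).trans (h 0)
    simpa using this
  have h1 : Integrable (fun x : ℝ => C * (2 + x ^ 4)) nu :=
    ((integrable_const 2).add h4).const_mul C
  refine h1.mono' hg.aestronglyMeasurable (Filter.Eventually.of_forall fun x => ?_)
  rw [Real.norm_eq_abs]
  refine (h x).trans (mul_le_mul_of_nonneg_left ?_ hC)
  nlinarith [sq_nonneg (x ^ 2 - 1), sq_nonneg (x ^ 2)]

theorem exp_le (b x : ℝ) (hb : 0 ≤ b) : Real.exp (-(b * x ^ 2)) ≤ 1 := by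
  rw [Real.exp_le_one_iff]
  have : 0 ≤ b * x ^ 2 := by positivity
  linarith

theorem one_sub_le (b x : ℝ) : 1 - Real.exp (-(b * x ^ 2)) ≤ b * x ^ 2 := by
  have := Real.add_one_le_exp (-(b * x ^ 2))
  linarith

theorem int_L0 (hKM : KappaMoments) {b : ℝ} (hb : 0 ≤ b) :
    Integrable (fun x : ℝ => Real.exp (-(b * x ^ 2))) nu := by
  refine int_of hKM (by fun_prop) (C := 1) fun x => ?_
  rw [abs_of_pos (Real.exp_pos _)]
  nlinarith [exp_le b x hb, sq_nonneg x]

theorem int_L1 (hKM : KappaMoments) {b : ℝ} (hb : 0 ≤ b) :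
    Integrable (fun x : ℝ => (1 + x ^ 2) * Real.exp (-(b * x ^ 2))) nu := by
  refine int_of hKM (by fun_prop) (C := 1) fun x => ?_
  rw [abs_of_nonneg (by positivity), mul_comm]
  exact mul_le_mul_of_nonneg_right (exp_le b x hb) (by positivity)

theorem int_M (hKM : KappaMoments) {b : ℝ} (hb : 0 ≤ b) :
    Integrable (fun x : ℝ => Real.exp (-(b * x ^ 2)) / (1 + x ^ 2)) nu := by
  refine int_of hKM (by fun_prop) (C := 1) fun x => ?_
  have h1 : (0 : ℝ) < 1 + x ^ 2 := by positivity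
  rw [abs_of_nonneg (by positivity), div_le_iff₀ h1]
  nlinarith [exp_le b x hb, sq_nonneg x, mul_pos h1 h1]

theorem int_Z (hKM : KappaMoments) {b : ℝ} (hb : 0 ≤ b) :
    Integrable (fun x : ℝ => (1 + x ^ 2) * ((1 - Real.exp (-(b * x ^ 2))) / x ^ 2)) nu := by
  refine int_of hKM (by fun_prop) (C := b) fun x => ?_
  have h0 : 0 ≤ (1 - Real.exp (-(b * x ^ 2))) / x ^ 2 :=
    div_nonneg (by linarith [exp_le b x hb]) (sq_nonneg x)
  have h1 : (1 - Real.exp (-(b * x ^ 2))) / x ^ 2 ≤ b := by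
    rcases eq_or_ne x 0 with rfl | hx
    · simpa using hb
    · have : 0 < x ^ 2 := by positivity
      rw [div_le_iff₀ this]
      exact one_sub_le b x
  rw [abs_of_nonneg (by positivity), mul_comm]
  exact mul_le_mul_of_nonneg_right h1 (by positivity)

theorem hasDeriv_e (b x : ℝ) : HasDerivAt (fun x : ℝ => Real.exp (-(b * x ^ 2)))
    (-(2 * b * x) * Real.exp (-(b * x ^ 2))) x := by
  have h1 : HasDerivAt (fun x : ℝ => -(b * x ^ 2)) (-(b * (2 * x))) x := by
    have h2 := ((hasDerivAt_pow 2 x).const_mul b).fun_neg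
    simpa using h2
  refine h1.exp.congr_deriv ?_
  ring

/-- the first application of the Stein identity -/
theorem stein1 (hKM : KappaMoments) (hKS : KappaStein) {b : ℝ} (hb : 0 < b) :
    ∫ κ, (1 - Real.exp (-(b * κ ^ 2))) / (1 + κ ^ 2) ∂nu =
      5 / 6 - 5 / 6 * (∫ κ, Real.exp (-(b * κ ^ 2)) ∂nu) -
        b / 3 * ((∫ κ, (1 + κ ^ 2) * Real.exp (-(b * κ ^ 2)) ∂nu) -
          ∫ κ, Real.exp (-(b * κ ^ 2)) ∂nu) := by
  have hp := hKM.1
  have hder : ∀ x : ℝ, HasDerivAt (fun x : ℝ => x * Real.exp (-(b * x ^ 2)) / (1 + x ^ 2))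
      ((1 - 2 * b * x ^ 2) * Real.exp (-(b * x ^ 2)) / (1 + x ^ 2) -
        2 * x ^ 2 * Real.exp (-(b * x ^ 2)) / (1 + x ^ 2) ^ 2) x := by
    intro x
    have h1 : (1 + x ^ 2 : ℝ) ≠ 0 := by positivity
    have h2 : HasDerivAt (fun x : ℝ => 1 + x ^ 2) (2 * x) x := by
      simpa using (hasDerivAt_pow 2 x).const_add 1
    refine (((hasDerivAt_id x).mul (hasDeriv_e b x)).div h2 h1).congr_deriv ?_
    simp only [id, Pi.mul_apply]
    field_simp
    ring
  have hbd : ∀ x : ℝ, |(1 - 2 * b * x ^ 2) * Real.exp (-(b * x ^ 2)) / (1 + x ^ 2) -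
        2 * x ^ 2 * Real.exp (-(b * x ^ 2)) / (1 + x ^ 2) ^ 2| ≤ 5 := by
    intro x
    have h1 : (0 : ℝ) < 1 + x ^ 2 := by positivity
    have h11 : (1 : ℝ) ≤ 1 + x ^ 2 := by nlinarith [sq_nonneg x]
    have he := exp_le b x hb.le
    have he0 := Real.exp_pos (-(b * x ^ 2))
    have h3 : b * x ^ 2 * Real.exp (-(b * x ^ 2)) ≤ 1 := by
      have h4 := Real.add_one_le_exp (b * x ^ 2)
      have h5 : Real.exp (b * x ^ 2) * Real.exp (-(b * x ^ 2)) = 1 := by
        rw [← Real.exp_add]; simp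
      nlinarith
    have h30 : 0 ≤ b * x ^ 2 * Real.exp (-(b * x ^ 2)) := by positivity
    have h6 : |(1 - 2 * b * x ^ 2) * Real.exp (-(b * x ^ 2)) / (1 + x ^ 2)| ≤ 3 := by
      rw [abs_div, abs_of_pos h1, div_le_iff₀ h1]
      have : |(1 - 2 * b * x ^ 2) * Real.exp (-(b * x ^ 2))| ≤ 3 := by
        rw [abs_le]
        constructor <;> nlinarith
      nlinarith
    have h7 : |2 * x ^ 2 * Real.exp (-(b * x ^ 2)) / (1 + x ^ 2) ^ 2| ≤ 2 := by
      rw [abs_of_nonneg (by positivity), div_le_iff₀ (by positivity)]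
      have h8 : x ^ 2 * Real.exp (-(b * x ^ 2)) ≤ x ^ 2 := by
        nlinarith [sq_nonneg x]
      nlinarith [sq_nonneg (x ^ 2), sq_nonneg x]
    exact abs_le.2 ⟨by linarith [(abs_le.1 h6).1, (abs_le.1 h7).2],
      by linarith [(abs_le.1 h6).2, (abs_le.1 h7).1]⟩
  have hst := hKS (fun x : ℝ => x * Real.exp (-(b * x ^ 2)) / (1 + x ^ 2)) 5 (fun x y => by
    have h := Convex.norm_image_sub_le_of_norm_hasDerivWithin_le (s := Set.univ)
      (fun x _ => (hder x).hasDerivWithinAt) (fun x _ => by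
        rw [Real.norm_eq_abs]; exact hbd x) convex_univ (Set.mem_univ y) (Set.mem_univ x)
    simpa [Real.norm_eq_abs] using h)
  have e1 : ∀ κ : ℝ, κ * (κ * Real.exp (-(b * κ ^ 2)) / (1 + κ ^ 2)) =
      Real.exp (-(b * κ ^ 2)) - Real.exp (-(b * κ ^ 2)) / (1 + κ ^ 2) := by
    intro κ
    have h1 : (1 + κ ^ 2 : ℝ) ≠ 0 := by positivity
    field_simp
    ring
  have e2 : ∀ κ : ℝ, (1 + κ ^ 2) *
      deriv (fun x : ℝ => x * Real.exp (-(b * x ^ 2)) / (1 + x ^ 2)) κ =
      (2 * b - 1) * Real.exp (-(b * κ ^ 2)) -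
        2 * b * ((1 + κ ^ 2) * Real.exp (-(b * κ ^ 2))) +
        2 * (Real.exp (-(b * κ ^ 2)) / (1 + κ ^ 2)) := by
    intro κ
    have h1 : (1 + κ ^ 2 : ℝ) ≠ 0 := by positivity
    rw [(hder κ).deriv]
    field_simp
    ring
  simp only [e1, e2] at hst
  have i0 := int_L0 hKM hb.le
  have i1 := int_L1 hKM hb.le
  have iM := int_M hKM hb.le
  have iA : Integrable (fun κ : ℝ => (2 * b - 1) * Real.exp (-(b * κ ^ 2)) -
      2 * b * ((1 + κ ^ 2) * Real.exp (-(b * κ ^ 2)))) nu :=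
    (i0.const_mul _).sub (i1.const_mul _)
  rw [integral_sub i0 iM, integral_add iA (iM.const_mul _),
    integral_sub (i0.const_mul _) (i1.const_mul _), integral_const_mul, integral_const_mul,
    integral_const_mul] at hst
  have iS : Integrable (fun x : ℝ => x ^ 2 / (1 + x ^ 2)) nu := by
    refine int_of hKM (by fun_prop) (C := 1) fun x => ?_
    have h1 : (0 : ℝ) < 1 + x ^ 2 := by positivity
    rw [abs_of_nonneg (by positivity), div_le_iff₀ h1]
    nlinarith [sq_nonneg x, sq_nonneg (x ^ 2)]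
  have e3 : ∀ κ : ℝ, (1 - Real.exp (-(b * κ ^ 2))) / (1 + κ ^ 2) =
      1 - κ ^ 2 / (1 + κ ^ 2) - Real.exp (-(b * κ ^ 2)) / (1 + κ ^ 2) := by
    intro κ
    have h1 : (1 + κ ^ 2 : ℝ) ≠ 0 := by positivity
    field_simp
    ring
  have e4 : ∫ κ, (1 - Real.exp (-(b * κ ^ 2))) / (1 + κ ^ 2) ∂nu =
      1 - 1 / 6 - ∫ κ, Real.exp (-(b * κ ^ 2)) / (1 + κ ^ 2) ∂nu := by
    simp only [e3]
    have iB : Integrable (fun κ : ℝ => 1 - κ ^ 2 / (1 + κ ^ 2)) nu := (integrable_const 1).sub iS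
    rw [integral_sub iB iM, integral_sub (integrable_const 1) iS,
      hKM.2.2.2.2.2]
    simp
  rw [e4]
  linarith

theorem hasDeriv_F {b : ℝ} (x : ℝ) : HasDerivAt (fun x : ℝ => (1 - Real.exp (-(b * x ^ 2))) / x)
    (if x = 0 then b else 2 * b * Real.exp (-(b * x ^ 2)) - (1 - Real.exp (-(b * x ^ 2))) / x ^ 2)
    x := by
  split_ifs with hx
  · subst hx
    rw [hasDerivAt_iff_tendsto_slope]
    have h1 : HasDerivAt (fun t : ℝ => 1 - Real.exp (-(b * t))) b 0 := by
      have h2 : HasDerivAt (fun t : ℝ => -(b * t)) (-b) 0 := by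
        simpa using ((hasDerivAt_id (0 : ℝ)).const_mul b).fun_neg
      have h3 := (h2.exp).const_sub 1
      refine h3.congr_deriv ?_
      simp
    rw [hasDerivAt_iff_tendsto_slope] at h1
    have h4 : Tendsto (fun x : ℝ => x ^ 2) (𝓝[≠] 0) (𝓝[≠] 0) := by
      rw [tendsto_nhdsWithin_iff]
      refine ⟨?_, ?_⟩
      · have : Tendsto (fun x : ℝ => x ^ 2) (𝓝 0) (𝓝 (0 ^ 2)) :=
          (continuous_pow 2).tendsto 0
        rw [zero_pow two_ne_zero] at this
        exact this.mono_left nhdsWithin_le_nhds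
      · filter_upwards [self_mem_nhdsWithin] with x hx
        exact pow_ne_zero 2 hx
    refine (h1.comp h4).congr' ?_
    filter_upwards [self_mem_nhdsWithin] with x hx
    have hx' : x ≠ 0 := hx
    simp only [Function.comp, slope_def_field, sub_zero, mul_zero, neg_zero, Real.exp_zero,
      sub_self, div_zero, ne_eq, OfNat.ofNat_ne_zero, not_false_eq_true, zero_pow]
    field_simp
  · have h1 := (hasDeriv_e b x).const_sub 1
    refine (h1.div (hasDerivAt_id x) hx).congr_deriv ?_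
    simp only [id]
    field_simp

/-- the second application of the Stein identity -/
theorem stein2 (hKM : KappaMoments) (hKS : KappaStein) {b : ℝ} (hb : 0 < b) :
    1 - ∫ κ, Real.exp (-(b * κ ^ 2)) ∂nu =
      b / 2 * (∫ κ, (1 + κ ^ 2) * Real.exp (-(b * κ ^ 2)) ∂nu) -
        1 / 4 * ∫ κ, (1 + κ ^ 2) * ((1 - Real.exp (-(b * κ ^ 2))) / κ ^ 2) ∂nu := by
  have hp := hKM.1
  have hbd : ∀ x : ℝ, |(if x = 0 then b else
      2 * b * Real.exp (-(b * x ^ 2)) - (1 - Real.exp (-(b * x ^ 2))) / x ^ 2)| ≤ 3 * b := by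
    intro x
    split_ifs with hx
    · rw [abs_of_pos hb]; linarith
    · have he := exp_le b x hb.le
      have he0 := Real.exp_pos (-(b * x ^ 2))
      have h0 : 0 ≤ (1 - Real.exp (-(b * x ^ 2))) / x ^ 2 :=
        div_nonneg (by linarith) (sq_nonneg x)
      have h1 : (1 - Real.exp (-(b * x ^ 2))) / x ^ 2 ≤ b := by
        have : 0 < x ^ 2 := by positivity
        rw [div_le_iff₀ this]
        exact one_sub_le b x
      rw [abs_le]
      constructor <;> nlinarith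
  have hst := hKS (fun x : ℝ => (1 - Real.exp (-(b * x ^ 2))) / x) (3 * b) (fun x y => by
    have h := Convex.norm_image_sub_le_of_norm_hasDerivWithin_le (s := Set.univ)
      (fun x _ => (hasDeriv_F (b := b) x).hasDerivWithinAt) (fun x _ => by
        rw [Real.norm_eq_abs]; exact hbd x) convex_univ (Set.mem_univ y) (Set.mem_univ x)
    simpa [Real.norm_eq_abs] using h)
  have e1 : ∀ κ : ℝ, κ * ((1 - Real.exp (-(b * κ ^ 2))) / κ) = 1 - Real.exp (-(b * κ ^ 2)) := by
    intro κ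
    rcases eq_or_ne κ 0 with rfl | hκ
    · simp
    · field_simp
  have hne : ∀ᵐ κ ∂nu, κ ≠ 0 := by
    have h1 : nu ≪ volume := withDensity_absolutelyContinuous _ _
    exact h1.ae_le (Measure.ae_ne volume 0)
  have e2 : ∫ κ, (1 + κ ^ 2) * deriv (fun x : ℝ => (1 - Real.exp (-(b * x ^ 2))) / x) κ ∂nu =
      ∫ κ, (2 * b * ((1 + κ ^ 2) * Real.exp (-(b * κ ^ 2))) -
        (1 + κ ^ 2) * ((1 - Real.exp (-(b * κ ^ 2))) / κ ^ 2)) ∂nu := by
    refine integral_congr_ae ?_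
    filter_upwards [hne] with κ hκ
    rw [(hasDeriv_F κ).deriv, if_neg hκ]
    ring
  rw [e2] at hst
  simp only [e1] at hst
  have i0 := int_L0 hKM hb.le
  have i1 := int_L1 hKM hb.le
  have iZ := int_Z hKM hb.le
  rw [integral_sub (integrable_const 1) i0, integral_sub (i1.const_mul _) iZ,
    integral_const_mul] at hst
  simp only [integral_const, probReal_univ, smul_eq_mul, mul_one] at hst
  linarith

/-- the lower bound for `L1` -/
theorem L1_ge {c : ℝ} (hc : 0 < c) : 8 / (3 * Real.pi) * √(Real.pi / (c + 2)) ≤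
    ∫ κ, (1 + κ ^ 2) * Real.exp (-(c * κ ^ 2)) ∂nu := by
  rw [int_nu, ← integral_gaussian, ← integral_const_mul]
  have hint2 : Integrable fun κ : ℝ => kd κ * ((1 + κ ^ 2) * Real.exp (-(c * κ ^ 2))) := by
    refine Integrable.mono' ((integrable_exp_neg_mul_sq hc).const_mul (8 / (3 * Real.pi))) ?_ ?_
    · exact (kd_cont.mul (by fun_prop)).aestronglyMeasurable
    · refine Filter.Eventually.of_forall fun κ => ?_
      have h0 := kd_nonneg κ
      rw [Real.norm_eq_abs, abs_of_nonneg (by positivity), ← mul_assoc,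
        show -c * κ ^ 2 = -(c * κ ^ 2) by ring]
      refine mul_le_mul_of_nonneg_right ?_ (Real.exp_pos _).le
      have h1 : (0 : ℝ) < 1 + κ ^ 2 := by positivity
      unfold kd
      rw [div_mul_eq_mul_div, div_le_iff₀ (by positivity)]
      have h2 : (1 + κ ^ 2 : ℝ) ≤ (1 + κ ^ 2) ^ 3 := by
        nlinarith [sq_nonneg κ, sq_nonneg (κ ^ 2), mul_nonneg (sq_nonneg κ) (sq_nonneg (κ ^ 2))]
      exact mul_le_mul_of_nonneg_left h2 (by positivity)
  refine integral_mono ((integrable_exp_neg_mul_sq (by linarith)).const_mul _) hint2 fun κ => ?_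
  change 8 / (3 * Real.pi) * Real.exp (-(c + 2) * κ ^ 2) ≤
    kd κ * ((1 + κ ^ 2) * Real.exp (-(c * κ ^ 2)))
  have h1 : (0 : ℝ) < 1 + κ ^ 2 := by positivity
  have h2 : Real.exp (-(c + 2) * κ ^ 2) = Real.exp (-(c * κ ^ 2)) * (Real.exp (-κ ^ 2)) ^ 2 := by
    rw [← Real.exp_nat_mul, ← Real.exp_add]
    congr 1
    push_cast
    ring
  have h3 : (1 + κ ^ 2) * Real.exp (-κ ^ 2) ≤ 1 := by
    have h4 := Real.add_one_le_exp (κ ^ 2)
    have h5 : Real.exp (κ ^ 2) * Real.exp (-κ ^ 2) = 1 := by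
      rw [← Real.exp_add]; simp
    nlinarith [Real.exp_pos (-κ ^ 2)]
  have h4 : kd κ * (1 + κ ^ 2) = 8 / (3 * Real.pi) * (1 / (1 + κ ^ 2)) ^ 2 := by
    unfold kd
    field_simp
  have h5 : Real.exp (-κ ^ 2) ≤ 1 / (1 + κ ^ 2) := by
    rw [le_div_iff₀ h1]; linarith
  have h6 : (Real.exp (-κ ^ 2)) ^ 2 ≤ (1 / (1 + κ ^ 2)) ^ 2 :=
    pow_le_pow_left₀ (Real.exp_pos _).le h5 2
  rw [← mul_assoc, h4, h2]
  have h7 : 8 / (3 * Real.pi) * (Real.exp (-(c * κ ^ 2)) * Real.exp (-κ ^ 2) ^ 2) =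
      8 / (3 * Real.pi) * Real.exp (-κ ^ 2) ^ 2 * Real.exp (-(c * κ ^ 2)) := by ring
  rw [h7]
  exact mul_le_mul_of_nonneg_right (mul_le_mul_of_nonneg_left h6 (by positivity))
    (Real.exp_pos _).le

/-- the final numerical estimate -/
theorem num {x t : ℝ} (hx : 0 < x) (ht : 0 < t) (h : 81 / 2 * t ≤ x ^ 2) :
    944 / 100 < x * (8 / (3 * Real.pi) * √(Real.pi / t)) := by
  have hpi := Real.pi_pos
  have hpi2 := Real.pi_lt_d2
  have h0 : 0 ≤ x * (8 / (3 * Real.pi) * √(Real.pi / t)) := by positivity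
  refine lt_of_pow_lt_pow_left₀ 2 h0 ?_
  rw [mul_pow, mul_pow, Real.sq_sqrt (by positivity)]
  have h1 : x ^ 2 * ((8 / (3 * Real.pi)) ^ 2 * (Real.pi / t)) =
      x ^ 2 * 64 / (9 * Real.pi * t) := by
    field_simp
    ring
  rw [h1, lt_div_iff₀ (by positivity)]
  have h2 : (944 / 100 : ℝ) ^ 2 * (9 * Real.pi * t) < 2592 * t := by
    have h3 : (944 / 100 : ℝ) ^ 2 * (9 * Real.pi) < 2592 := by
      have : Real.pi < 3.15 := hpi2
      norm_num at this ⊢
      linarith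
    nlinarith
  nlinarith

theorem main (hKM : KappaMoments) (hKS : KappaStein) : KappaNum2 := by
  intro b hb
  have s1 := stein1 hKM hKS hb
  have s2 := stein2 hKM hKS hb
  have i1 := int_L1 hKM hb.le
  have i1' := int_L1 hKM (b := b / 2) (by positivity)
  have iZ := int_Z hKM hb.le
  have hne : ∀ᵐ κ ∂nu, κ ≠ 0 := by
    have h1 : nu ≪ volume := withDensity_absolutelyContinuous _ _
    exact h1.ae_le (Measure.ae_ne volume 0)
  set L0 := ∫ κ, Real.exp (-(b * κ ^ 2)) ∂nu with hL0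
  set L1 := ∫ κ, (1 + κ ^ 2) * Real.exp (-(b * κ ^ 2)) ∂nu with hL1
  set Z := ∫ κ, (1 + κ ^ 2) * ((1 - Real.exp (-(b * κ ^ 2))) / κ ^ 2) ∂nu with hZ
  rw [s1]
  have hQ : 2 * b * L1 + 24 * L0 - 72 / b * (5 / 6 - 5 / 6 * L0 - b / 3 * (L1 - L0)) =
      (2 * b - 6) * L1 + 15 * (Z / b) := by
    have h1 : L0 = 1 - (b / 2 * L1 - 1 / 4 * Z) := by linarith
    rw [h1]
    field_simp
    ring
  rw [hQ]
  -- `Z / b` is an integral
  have hZb : Z / b = ∫ κ, (1 + κ ^ 2) * ((1 - Real.exp (-(b * κ ^ 2))) / (b * κ ^ 2)) ∂nu := by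
    rw [hZ, div_eq_inv_mul, ← integral_const_mul]
    refine integral_congr_ae ?_
    filter_upwards [hne] with κ hκ
    field_simp
  have iZb : Integrable (fun κ : ℝ =>
      (1 + κ ^ 2) * ((1 - Real.exp (-(b * κ ^ 2))) / (b * κ ^ 2))) nu := by
    refine (iZ.const_mul b⁻¹).congr ?_
    filter_upwards [hne] with κ hκ
    field_simp
  have k1 : L1 ≤ Z / b := by
    rw [hZb, hL1]
    refine integral_mono_ae i1 iZb ?_
    filter_upwards [hne] with κ hκ
    refine mul_le_mul_of_nonneg_left ?_ (by positivity)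
    have ht : 0 < b * κ ^ 2 := by positivity
    rw [le_div_iff₀ ht]
    have h4 := Real.add_one_le_exp (b * κ ^ 2)
    have h5 : Real.exp (b * κ ^ 2) * Real.exp (-(b * κ ^ 2)) = 1 := by
      rw [← Real.exp_add]; simp
    nlinarith [Real.exp_pos (-(b * κ ^ 2))]
  have k2 : ∫ κ, (1 + κ ^ 2) * Real.exp (-(b / 2 * κ ^ 2)) ∂nu ≤ Z / b := by
    rw [hZb]
    refine integral_mono_ae i1' iZb ?_
    filter_upwards [hne] with κ hκ
    refine mul_le_mul_of_nonneg_left ?_ (by positivity)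
    have ht : 0 < b * κ ^ 2 := by positivity
    rw [le_div_iff₀ ht]
    set y : ℝ := b * κ ^ 2 / 2 with hy
    have hy0 : 0 < y := by positivity
    have e1 : b / 2 * κ ^ 2 = y := by rw [hy]; ring
    have e2 : b * κ ^ 2 = 2 * y := by rw [hy]; ring
    rw [e1, e2]
    have h4 : y ≤ Real.sinh y := by
      exact Real.self_le_sinh_iff.2 hy0.le
    rw [Real.sinh_eq] at h4
    have h5 : Real.exp y * Real.exp (-y) = 1 := by
      rw [← Real.exp_add]; simp
    have h6 : Real.exp (-(2 * y)) = Real.exp (-y) * Real.exp (-y) := by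
      rw [← Real.exp_add]; congr 1; ring
    rw [h6]
    have h7 := mul_le_mul_of_nonneg_right h4 (Real.exp_pos (-y)).le
    nlinarith
  have l1 := L1_ge hb
  have l2 := L1_ge (c := b / 2) (by positivity)
  rcases le_total b 3 with h3 | h3
  · have n1 := num (x := 2 * b + 9) (t := b / 2 + 2) (by positivity) (by positivity)
      (by nlinarith)
    have m1 : (2 * b + 9) * (8 / (3 * Real.pi) * √(Real.pi / (b / 2 + 2))) ≤
        (2 * b + 9) * (Z / b) :=
      mul_le_mul_of_nonneg_left (l2.trans k2) (by positivity)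
    nlinarith
  · have n1 := num (x := 2 * b + 9) (t := b + 2) (by positivity) (by positivity)
      (by nlinarith)
    have m1 : (2 * b + 9) * (8 / (3 * Real.pi) * √(Real.pi / (b + 2))) ≤
        (2 * b + 9) * L1 :=
      mul_le_mul_of_nonneg_left l1 (by positivity)
    nlinarith

end Pool.Agent.J6H84.FVN
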